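import Mathlib
import Pool.Agent.H80.HilbDefs
import Pool.Agent.H80.HilbDefs2
import Pool.Agent.H80.HilbVC2

open Pool.Agent.H80.Hilb

theorem Pool.Agent.Results.MP_5fb40f_ag.Neither.result (k : Type) [Field k] [IsAlgClosed k] :
    ∃ n d : ℕ, 1 ≤ n ∧ 1 ≤ d ∧ ¬ VC k n d ⊆ Smoothable k n d ∧
      closure (VC k n d) ∉ irreducibleComponents (Pts k (MvPolynomial (Fin n) k) d) :=
  vc_main k
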